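import Mathlib

/-!
# Increasing sequences of sets whose closures are nearly contained in them: Baire category
-/

set_option autoImplicit false

open Set Filter Topology

namespace Pool.Agent.Q93.QB

section

variable {X : Type} [TopologicalSpace X] {P : Type} (S : P → ℕ → Set X)

/-- the points which belong to the union of each sequence of sets -/
def Lim : Set X := {x | ∀ p, ∃ L, x ∈ S p L}

/-- the points with a neighbourhood which is contained in one of the sets -/
def Loc (p : P) : Set X := {x | ∃ L, ∀ᶠ y in 𝓝 x, y ∈ S p L}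

theorem loc_open (p : P) : IsOpen (Loc S p) := by
  rw [isOpen_iff_mem_nhds]
  rintro x ⟨L, hL⟩
  filter_upwards [eventually_eventually_nhds.2 hL] with y hy
  exact ⟨L, hy⟩

theorem nd (A : Set X) : IsNowhereDense (A \ interior (closure A)) := by
  have h1 : closure (A \ interior (closure A)) ⊆ closure A ∩ (interior (closure A))ᶜ := by
    refine closure_minimal (fun x hx => ⟨subset_closure hx.1, hx.2⟩) ?_
    exact isClosed_closure.inter isOpen_interior.isClosed_compl
  show interior _ = ∅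
  rw [Set.eq_empty_iff_forall_notMem]
  intro x hx
  have h2 : interior (closure (A \ interior (closure A))) ⊆ interior (closure A) :=
    interior_mono (h1.trans inter_subset_left)
  exact (h1 (interior_subset hx)).2 (h2 hx)

theorem meagre_res {A : Set X} (h : IsMeagre A) : ∀ᶠ x in residual X, x ∉ A := h

theorem generic (hK : ∀ p, ∃ q, ∀ L, ∃ L', interior (closure (S q L)) ⊆ S p L')
    (I : Set P) (hI : I.Countable) (hc : ∀ p, ∃ i ∈ I, ∀ L, S i L ⊆ S p L) :
    ∀ᶠ x in residual X, x ∈ Lim S → ∀ p, x ∈ Loc S p := by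
  choose q hq using hK
  have key : ∀ i ∈ I, ∀ L, ∀ᶠ x in residual X,
      x ∉ S (q i) L \ interior (closure (S (q i) L)) := fun i _ L =>
    meagre_res (nd _).isMeagre
  have key2 : ∀ᶠ x in residual X, ∀ i ∈ I, ∀ L,
      x ∉ S (q i) L \ interior (closure (S (q i) L)) := by
    rw [eventually_countable_ball hI]
    intro i hi
    rw [eventually_countable_forall]
    exact key i hi
  filter_upwards [key2] with x hx hQ p
  obtain ⟨i, hi, hip⟩ := hc p
  obtain ⟨L, hL⟩ := hQ (q i)
  have h1 : x ∈ interior (closure (S (q i) L)) := by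
    by_contra h
    exact hx i hi L ⟨hL, h⟩
  obtain ⟨L', hL'⟩ := hq i L
  refine ⟨L', ?_⟩
  filter_upwards [isOpen_interior.mem_nhds h1] with y hy
  exact hip _ (hL' hy)

theorem nd_loc (U : Set X) (hU : IsOpen U) (p : P) (hp : U ⊆ closure (Loc S p)) :
    IsNowhereDense (U \ Loc S p) := by
  show interior _ = ∅
  rw [Set.eq_empty_iff_forall_notMem]
  intro x hx
  set W : Set X := interior (closure (U \ Loc S p)) with hW
  have hWo : IsOpen W := isOpen_interior
  -- the open set `W` meets `U \ Loc`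
  obtain ⟨y, hyW, hyU, -⟩ := mem_closure_iff.1 (interior_subset hx : x ∈ closure _) W hWo hx
  obtain ⟨z, ⟨hzW, hzU⟩, hzL⟩ := mem_closure_iff.1 (hp hyU) (W ∩ U) (hWo.inter hU) ⟨hyW, hyU⟩
  obtain ⟨w, hw1, hw2⟩ := mem_closure_iff.1 (interior_subset hzW : z ∈ closure _) _
    (loc_open S p) hzL
  exact hw2.2 hw1

/-- up to a meagre set the limit set is open, and it consists of the points where the property holds
locally uniformly -/
theorem open_law (hK : ∀ p, ∃ q, ∀ L, ∃ L', interior (closure (S q L)) ⊆ S p L')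
    (I : Set P) (hI : I.Countable) (hc : ∀ p, ∃ i ∈ I, ∀ L, S i L ⊆ S p L) :
    ∃ U₀ : Set X, IsOpen U₀ ∧ ∀ᶠ x in residual X,
      (x ∈ Lim S ↔ x ∈ U₀) ∧ (x ∈ Lim S ↔ ∀ p, x ∈ Loc S p) := by
  set F : Set X := ⋂ i ∈ I, closure (Loc S i) with hF
  have hFc : IsClosed F := isClosed_biInter fun i _ => isClosed_closure
  refine ⟨interior F, isOpen_interior, ?_⟩
  have h1 : ∀ᶠ x in residual X, x ∉ F \ interior F := by
    have h := nd F
    rw [hFc.closure_eq] at h
    exact meagre_res h.isMeagre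
  have h2 : ∀ᶠ x in residual X, ∀ i ∈ I, x ∉ interior F \ Loc S i :=
    (eventually_countable_ball hI).2 fun i hi => meagre_res (nd_loc S (interior F)
      isOpen_interior i (interior_subset.trans (biInter_subset_of_mem hi))).isMeagre
  filter_upwards [h1, h2, generic S hK I hI hc] with x h1 h2 h3
  have k1 : x ∈ Lim S → x ∈ interior F := by
    intro hx
    have hxF : x ∈ F := mem_iInter₂.2 fun i _ => subset_closure (h3 hx i)
    by_contra h
    exact h1 ⟨hxF, h⟩
  have k2 : x ∈ interior F → ∀ p, x ∈ Loc S p := by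
    intro hx p
    obtain ⟨i, hi, hip⟩ := hc p
    have h4 : x ∈ Loc S i := by
      by_contra h5
      exact h2 i hi ⟨hx, h5⟩
    obtain ⟨L, hL⟩ := h4
    exact ⟨L, hL.mono fun y hy => hip L hy⟩
  have k3 : (∀ p, x ∈ Loc S p) → x ∈ Lim S := by
    intro h p
    obtain ⟨L, hL⟩ := h p
    exact ⟨L, hL.self_of_nhds⟩
  exact ⟨⟨k1, fun h => k3 (k2 h)⟩, ⟨fun h => h3 h, k3⟩⟩

/-- if the points outside all the sets are dense in an open set then they are generic there -/
theorem dense_generic (p : P) (hK : ∀ L, ∃ L', interior (closure (S p L)) ⊆ S p L')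
    (V : Set X) (hV : IsOpen V) (hd : V ⊆ closure {x | x ∈ V ∧ ∀ L, x ∉ S p L}) :
    ∀ᶠ x in residual X, x ∈ V → ∀ L, x ∉ S p L := by
  have key : ∀ L, IsNowhereDense (V ∩ S p L) := by
    intro L
    show interior _ = ∅
    rw [Set.eq_empty_iff_forall_notMem]
    intro x hx
    obtain ⟨y, hy1, hy2⟩ := mem_closure_iff.1 (interior_subset hx : x ∈ closure _) _
      isOpen_interior hx
    obtain ⟨L', hL'⟩ := hK L
    obtain ⟨z, ⟨hz1, -⟩, -, hz2⟩ := mem_closure_iff.1 (hd hy2.1)
      (interior (closure (V ∩ S p L)) ∩ V) (isOpen_interior.inter hV) ⟨hy1, hy2.1⟩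
    exact hz2 L' (hL' (interior_mono (closure_mono inter_subset_right) hz1))
  have h2 : ∀ᶠ x in residual X, ∀ L, x ∉ V ∩ S p L := by
    rw [eventually_countable_forall]
    exact fun L => meagre_res (key L).isMeagre
  filter_upwards [h2] with x hx hxV L hL
  exact hx L ⟨hxV, hL⟩

theorem tfae [BaireSpace X] (hK : ∀ p, ∃ q, ∀ L, ∃ L', interior (closure (S q L)) ⊆ S p L')
    (I : Set P) (hI : I.Countable) (hc : ∀ p, ∃ i ∈ I, ∀ L, S i L ⊆ S p L)
    (U : Set X) (hU : IsOpen U) :
    [∀ᶠ x in residual X, x ∈ U → x ∈ Lim S,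
      ∀ V : Set X, IsOpen V → V.Nonempty → V ⊆ U → ¬ IsMeagre (V ∩ Lim S),
      ∀ (p : P) (V : Set X), IsOpen V → V.Nonempty → V ⊆ U →
        ¬ IsMeagre (V ∩ {x | ∃ L, x ∈ S p L}),
      ∀ p : P, IsNowhereDense {x | x ∈ U ∧ ∀ L, x ∉ S p L},
      ∀ p : P, U ⊆ closure (Loc S p),
      ∀ᶠ x in residual X, x ∈ U → ∀ p, x ∈ Loc S p].TFAE := by
  have hnd := nd_loc S U hU
  tfae_have 1 → 2 := by
    intro h V hV hVn hVU hm
    have h1 : ∀ᶠ x in residual X, x ∉ V := by
      filter_upwards [h, meagre_res hm] with x h1 h2 h3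
      exact h2 ⟨h3, h1 (hVU h3)⟩
    obtain ⟨x, hx1, hx2⟩ := (dense_of_mem_residual h1).exists_mem_open hV hVn
    exact hx1 hx2
  tfae_have 2 → 3 := by
    intro h p V hV hVn hVU hm
    refine h V hV hVn hVU (hm.mono ?_)
    rintro x ⟨hx1, hx2⟩
    exact ⟨hx1, hx2 p⟩
  tfae_have 3 → 5 := by
    intro h p x hx
    obtain ⟨q, hq⟩ := hK p
    rw [mem_closure_iff]
    intro V hV hxV
    have h1 := h q (V ∩ U) (hV.inter hU) ⟨x, hxV, hx⟩ inter_subset_right
    by_contra hcon
    apply h1
    have h2 : V ∩ U ∩ {x | ∃ L, x ∈ S q L} ⊆ ⋃ L, (V ∩ U ∩ S q L) := by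
      rintro y ⟨hy, L, hL⟩
      exact mem_iUnion.2 ⟨L, hy, hL⟩
    refine IsMeagre.mono h2 (isMeagre_iUnion fun L => ?_)
    refine IsNowhereDense.isMeagre ?_
    show interior _ = ∅
    rw [Set.eq_empty_iff_forall_notMem]
    intro y hy
    obtain ⟨z, hz1, hz2⟩ := mem_closure_iff.1
      (interior_subset hy : y ∈ closure _) _ isOpen_interior hy
    apply hcon
    obtain ⟨L', hL'⟩ := hq L
    refine ⟨z, hz2.1.1, L', ?_⟩
    have h3 : z ∈ interior (closure (S q L)) :=
      interior_mono (closure_mono inter_subset_right) hz1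
    filter_upwards [isOpen_interior.mem_nhds h3] with w hw
    exact hL' hw
  tfae_have 5 → 6 := by
    intro h
    have key : ∀ i ∈ I, ∀ᶠ x in residual X, x ∉ U \ Loc S i := fun i _ =>
      meagre_res (hnd i (h i)).isMeagre
    have key2 := (eventually_countable_ball hI).2 key
    filter_upwards [key2] with x hx hxU p
    obtain ⟨i, hi, hip⟩ := hc p
    have h1 : x ∈ Loc S i := by
      by_contra h2
      exact hx i hi ⟨hxU, h2⟩
    obtain ⟨L, hL⟩ := h1
    exact ⟨L, hL.mono fun y hy => hip L hy⟩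
  tfae_have 6 → 1 := by
    intro h
    filter_upwards [h] with x hx hxU p
    obtain ⟨L, hL⟩ := hx hxU p
    exact ⟨L, hL.self_of_nhds⟩
  tfae_have 5 → 4 := by
    intro h p
    refine (hnd p (h p)).mono ?_
    rintro x ⟨hx1, hx2⟩
    refine ⟨hx1, ?_⟩
    rintro ⟨L, hL⟩
    exact hx2 L hL.self_of_nhds
  tfae_have 4 → 1 := by
    intro h
    have key : ∀ i ∈ I, ∀ᶠ x in residual X, x ∉ {x | x ∈ U ∧ ∀ L, x ∉ S i L} := fun i _ =>
      meagre_res (h i).isMeagre
    have key2 := (eventually_countable_ball hI).2 key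
    filter_upwards [key2] with x hx hxU p
    obtain ⟨i, hi, hip⟩ := hc p
    have h1 : ∃ L, x ∈ S i L := by
      by_contra h2
      exact hx i hi ⟨hxU, fun L hL => h2 ⟨L, hL⟩⟩
    obtain ⟨L, hL⟩ := h1
    exact ⟨L, hip L hL⟩
  tfae_finish

end

end Pool.Agent.Q93.QB
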