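import Pool.Agent.Q93.QB.Sel
import Pool.Agent.Q93.QB.Top

/-!
# A deviation from equidistribution spreads to an open set of conformal factors
-/

set_option autoImplicit false

open Set Filter Topology MeasureTheory

noncomputable section

namespace Pool.Agent.Q93.QB

open Pool.Agent.Y262.QE Pool.Agent.Y264.QR Pool.Agent.Y378.QR Q101.QG

section

variable {M : Type} [MetricSpace M] [CompactSpace M] [MeasurableSpace M] [BorelSpace M]
  (μ : Measure M) [IsFiniteMeasure μ] {H : Type} [NormedAddCommGroup H] [InnerProductSpace ℝ H]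
  (i : H →L[ℝ] Lp ℝ 2 μ) (a : H →L[ℝ] H →L[ℝ] ℝ) (b : C(M, ℝ) → H →L[ℝ] H →L[ℝ] ℝ)

theorem avg_sub' (f g φ : C(M, ℝ)) : avg μ (f - g) φ = avg μ f φ - avg μ g φ := by
  have := avg_add (μ := μ) (f - g) g φ
  rw [sub_add_cancel] at this
  linarith

theorem avg_near (f g φ : C(M, ℝ)) : |avg μ f φ - avg μ g φ| ≤ ‖f - g‖ := by
  letI : MeasurableSpace C(M, ℝ) := borel _
  haveI : BorelSpace C(M, ℝ) := ⟨rfl⟩
  obtain ⟨-, -, havb, -⟩ := Pool.Agent.Y689.QR.cm M μ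
  have h := havb (f - g) φ
  rwa [avg_sub'] at h

theorem avg_cont (g : C(M, ℝ)) : Continuous fun φ => avg μ g φ := by
  letI : MeasurableSpace C(M, ℝ) := borel _
  haveI : BorelSpace C(M, ℝ) := ⟨rfl⟩
  exact (Pool.Agent.Y689.QR.cm M μ).2.1 g

theorem kap_near (hS : Sf μ i a) (hB : IsB μ i b) (f g φ : C(M, ℝ)) (v : H)
    (hv : b φ v v = 1) : |kap μ i f φ v - kap μ i g φ v| ≤ ‖f - g‖ := by
  obtain ⟨-, -, hk⟩ := forms μ i a b hS hB
  obtain ⟨q, -, hq2⟩ := hk (f - g)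
  have h2 := (hq2 φ v).2
  rwa [(hq2 φ v).1, hv, mul_one, kap_sub] at h2

/-- a deviation from equidistribution spreads to an open set near the given point -/
theorem spread [CompleteSpace H] (hS : Sf μ i a) (hB : IsB μ i b) (hW : Wl μ a b) {B : Type}
    [AddCommGroup B] [Module ℝ B] [TopologicalSpace B] [IsTopologicalAddGroup B]
    [ContinuousSMul ℝ B] (ι : B →L[ℝ] C(M, ℝ)) (x₀ : B) (f : C(M, ℝ))
    (hf : f ∈ closure (range ι))
    (c η : ℝ) (hη : 0 < η) (v : H) (j₀ : ℕ) (ρ : ℝ) (hρ : 0 < ρ)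
    (hj : 0 < Ev a (b (ι x₀)) j₀) (hv : EV a (b (ι x₀)) (Ev a (b (ι x₀)) j₀) v)
    (hdev : avg μ f (ι x₀) + c < kap μ i f (ι x₀) v) (O : Set B) (hO : IsOpen O) (hx : x₀ ∈ O) :
    ∃ (O' : Set B) (j : ℕ), IsOpen O' ∧ O'.Nonempty ∧ O' ⊆ O ∧
      ∀ y ∈ O', |Ev a (b (ι y)) j - Ev a (b (ι x₀)) j₀| < ρ ∧
        ∀ w, EV a (b (ι y)) (Ev a (b (ι y)) j) w →
          avg μ f (ι y) + (c - η) < kap μ i f (ι y) w := by
  obtain ⟨hF, hb, hk⟩ := forms μ i a b hS hB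
  obtain ⟨_, ⟨y₀, rfl⟩, hy₀⟩ := Metric.mem_closure_iff.1 hf (η / 16) (by positivity)
  set g : C(M, ℝ) := ι y₀ with hg
  rw [dist_eq_norm] at hy₀
  obtain ⟨j, hjE, hsel⟩ := sel μ i a b hS hB hW (ι x₀) g v j₀ hv hj (η / 16)
    (by positivity)
  have hEc := (tLip M μ H a b hF hb).2.2.2.1 j
  have hc : Continuous fun t : ℝ => x₀ + t • y₀ := by fun_prop
  have hc0 : x₀ + (0 : ℝ) • y₀ = x₀ := by rw [zero_smul, add_zero]
  have c1 : ∀ᶠ t in 𝓝 (0 : ℝ), x₀ + t • y₀ ∈ O := by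
    refine hc.continuousAt.eventually ?_
    show ∀ᶠ y in 𝓝 (x₀ + (0 : ℝ) • y₀), y ∈ O
    rw [hc0]
    exact hO.mem_nhds hx
  have c2 : ∀ᶠ t in 𝓝 (0 : ℝ),
      |avg μ g (ι (x₀ + t • y₀)) - avg μ g (ι x₀)| < η / 16 := by
    have h1 : Continuous fun t : ℝ => |avg μ g (ι (x₀ + t • y₀)) - avg μ g (ι x₀)| :=
      (((avg_cont μ g).comp (ι.continuous.comp hc)).sub continuous_const).abs
    refine h1.continuousAt.eventually_lt_const ?_
    simp only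
    rw [hc0, sub_self, abs_zero]
    positivity
  have hEd : Continuous fun ψ => |Ev a (b ψ) j - Ev a (b (ι x₀)) j₀| :=
    (hEc.sub continuous_const).abs
  have c3 : ∀ᶠ t in 𝓝 (0 : ℝ),
      |Ev a (b (ι (x₀ + t • y₀))) j - Ev a (b (ι x₀)) j₀| < ρ := by
    have h1 : Continuous fun t : ℝ => |Ev a (b (ι (x₀ + t • y₀))) j - Ev a (b (ι x₀)) j₀| :=
      hEd.comp (ι.continuous.comp hc)
    refine h1.continuousAt.eventually_lt_const ?_
    simp only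
    rw [hc0, hjE, sub_self, abs_zero]
    exact hρ
  obtain ⟨δ, hδ, hball⟩ := Metric.eventually_nhds_iff.1 (c1.and (c2.and c3))
  obtain ⟨s, hs0, hsδ, hs⟩ := hsel δ hδ
  obtain ⟨d1, d2, d3⟩ := hball (show dist s 0 < δ by
    rw [Real.dist_eq, sub_zero, abs_of_pos hs0]; exact hsδ)
  set x₁ : B := x₀ + s • y₀ with hx₁
  have hx1 : ι x₁ = ι x₀ + s • g := by rw [hx₁, map_add, map_smul]
  rw [← hx1] at hs
  have n1 := near μ i a b hS hB j g (kap μ i g (ι x₀) v - η / 16) (η / 16) (by positivity)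
    (ι x₁) hs
  have n2 : ∀ᶠ ψ in 𝓝 (ι x₁), |avg μ g ψ - avg μ g (ι x₁)| < η / 16 := by
    have h1 : Continuous fun ψ => |avg μ g ψ - avg μ g (ι x₁)| :=
      ((avg_cont μ g).sub continuous_const).abs
    refine h1.continuousAt.eventually_lt_const ?_
    simp only
    rw [sub_self, abs_zero]
    positivity
  have n3 : ∀ᶠ ψ in 𝓝 (ι x₁), |Ev a (b ψ) j - Ev a (b (ι x₀)) j₀| < ρ :=
    hEd.continuousAt.eventually_lt_const d3
  have n4 := ι.continuous.continuousAt.eventually (n1.and (n2.and n3))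
  obtain ⟨O₁, hO₁, hO₁o, hxO₁⟩ := eventually_nhds_iff.1 n4
  refine ⟨O ∩ O₁, j, hO.inter hO₁o, ⟨x₁, d1, hxO₁⟩, inter_subset_left, ?_⟩
  rintro y ⟨-, hy⟩
  obtain ⟨m1, m2, m3⟩ := hO₁ y hy
  refine ⟨m3, fun w hw => ?_⟩
  have k1 := m1 w hw
  have k2 := kap_near μ i a b hS hB f g (ι y) w hw.2
  have k3 := kap_near μ i a b hS hB f g (ι x₀) v hv.2
  have k4 := avg_near μ f g (ι y)
  have k5 := avg_near μ f g (ι x₀)
  have k2' := abs_le.1 k2
  have k3' := abs_le.1 k3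
  have k4' := abs_le.1 k4
  have k5' := abs_le.1 k5
  have m2' := abs_lt.1 m2
  have d2' := abs_lt.1 d2
  linarith [k2'.1, k2'.2, k3'.1, k3'.2, k4'.1, k4'.2, k5'.1, k5'.2, m2'.1, m2'.2, d2'.1, d2'.2]

end

end Pool.Agent.Q93.QB
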