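import Pool.Agent.Q93.QB.Surf

/-!
# Generic and locally uniform quantum unique ergodicity, rates
-/

set_option autoImplicit false

open Set Filter Topology MeasureTheory

noncomputable section

namespace Pool.Agent.Q93.QB

open Pool.Agent.Y262.QE Pool.Agent.Y264.QR Pool.Agent.Y378.QR Q101.QG

section

variable {M : Type} [MetricSpace M] [CompactSpace M] [MeasurableSpace M] [BorelSpace M]

/-- every sequence of normalized eigenfunctions with eigenvalues tending to infinity is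
equidistributed if and only if all eigenfunctions with large eigenvalues are nearly equidistributed
on each continuous function -/
theorem que_iff (D : Data M) (μ : Measure M) :
    (∀ (E : ℕ → ℝ) (v : ℕ → M → ℝ), (∀ n, D.IsEig μ (E n) (v n)) →
      (∀ n, ∫ x, (v n x) ^ 2 ∂μ = 1) → Tendsto E atTop atTop → ∀ f : C(M, ℝ),
        Tendsto (fun n => ∫ x, f x * (v n x) ^ 2 ∂μ) atTop
          (𝓝 ((∫ x, f x ∂μ) / μ.real univ))) ↔
    ∀ (f : C(M, ℝ)) (ε : ℝ), 0 < ε → ∃ L : ℕ, Ok D μ f (fun _ => ε) L := by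
  constructor
  · intro h f ε hε
    by_contra hcon
    push Not at hcon
    have h1 : ∀ L : ℕ, ∃ (E : ℝ) (v : M → ℝ), D.IsEig μ E v ∧ ∫ x, (v x) ^ 2 ∂μ = 1 ∧
        (L : ℝ) ≤ E ∧ ε < |∫ x, f x * (v x) ^ 2 ∂μ - (∫ x, f x ∂μ) / μ.real univ| := by
      intro L
      have h2 := hcon L
      unfold Ok at h2
      push Not at h2
      obtain ⟨E, v, k1, k2, k3, k4⟩ := h2
      exact ⟨E, v, k1, k2, k3, k4⟩
    choose E v k1 k2 k3 k4 using h1
    have h2 := h E v k1 k2 (tendsto_atTop_mono k3 tendsto_natCast_atTop_atTop) f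
    obtain ⟨n, hn⟩ := (h2.eventually (Metric.ball_mem_nhds _ hε)).exists
    rw [Real.dist_eq] at hn
    exact absurd hn (not_lt.2 (k4 n).le)
  · intro h E v hE hn ht f
    rw [Metric.tendsto_nhds]
    intro ε hε
    obtain ⟨L, hL⟩ := h f (ε / 2) (by positivity)
    filter_upwards [ht.eventually_ge_atTop (L : ℝ)] with n hn'
    rw [Real.dist_eq]
    exact lt_of_le_of_lt (hL (E n) (v n) (hE n) (hn n) hn') (by linarith)

variable [Nonempty M] (μ : Measure M) (D : Data M)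

/-- the sets for quantum unique ergodicity -/
def SQ {B : Type} (ι : B → C(M, ℝ)) (p : Pr M) (L : ℕ) : Set B :=
  OkSet D μ ι p.1 (fun _ => (p.2 : ℝ)) L

/-- the sets for a rate -/
def SR {B : Type} (ι : B → C(M, ℝ)) (f : C(M, ℝ)) (r : ℝ → ℝ) (_ : Unit) (L : ℕ) : Set B :=
  OkSet D μ ι f r L

theorem hK_Q (hD : D.IsSurf μ) {B : Type} [AddCommGroup B] [Module ℝ B] [TopologicalSpace B]
    [IsTopologicalAddGroup B] [ContinuousSMul ℝ B] (ι : B →L[ℝ] C(M, ℝ)) (hι : DenseRange ι)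
    (p : Pr M) : ∃ q, ∀ L, ∃ L', interior (closure (SQ μ D ι q L)) ⊆ SQ μ D ι p L' := by
  exact ⟨p, fun L => ⟨L + 1, kp μ D hD ι p.1 (hι p.1) (fun _ => (p.2 : ℝ)) continuous_const L⟩⟩

theorem hK_R (hD : D.IsSurf μ) {B : Type} [AddCommGroup B] [Module ℝ B] [TopologicalSpace B]
    [IsTopologicalAddGroup B] [ContinuousSMul ℝ B] (ι : B →L[ℝ] C(M, ℝ))
    (f : C(M, ℝ)) (hf : f ∈ closure (range ι)) (r : ℝ → ℝ) (hr : Continuous r) (p : Unit) :
    ∃ q, ∀ L, ∃ L', interior (closure (SR μ D ι f r q L)) ⊆ SR μ D ι f r p L' :=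
  ⟨(), fun L => ⟨L + 1, kp μ D hD ι f hf r hr L⟩⟩

/-- the topological law for quantum unique ergodicity -/
theorem law_Q (hD : D.IsSurf μ) {B : Type} [AddCommGroup B] [Module ℝ B] [TopologicalSpace B]
    [IsTopologicalAddGroup B] [ContinuousSMul ℝ B] (ι : B →L[ℝ] C(M, ℝ)) (hι : DenseRange ι) :
    ∃ U₀ : Set B, IsOpen U₀ ∧ ∀ᶠ y in residual B,
      (y ∈ Lim (SQ μ D ι) ↔ y ∈ U₀) ∧ (y ∈ Lim (SQ μ D ι) ↔ ∀ p, y ∈ Loc (SQ μ D ι) p) := by
  obtain ⟨I, hI, hc⟩ := cof μ D hD ι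
  exact open_law (SQ μ D ι) (hK_Q μ D hD ι hι) I hI hc

/-- the topological law for a rate -/
theorem law_R (hD : D.IsSurf μ) {B : Type} [AddCommGroup B] [Module ℝ B] [TopologicalSpace B]
    [IsTopologicalAddGroup B] [ContinuousSMul ℝ B] (ι : B →L[ℝ] C(M, ℝ))
    (f : C(M, ℝ)) (hf : f ∈ closure (range ι)) (r : ℝ → ℝ) (hr : Continuous r) :
    ∃ U₀ : Set B, IsOpen U₀ ∧ ∀ᶠ y in residual B,
      (y ∈ Lim (SR μ D ι f r) ↔ y ∈ U₀) ∧
      (y ∈ Lim (SR μ D ι f r) ↔ ∀ p, y ∈ Loc (SR μ D ι f r) p) :=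
  open_law (SR μ D ι f r) (hK_R μ D hD ι f hf r hr) univ countable_univ
    fun p => ⟨p, mem_univ _, fun _ => subset_rfl⟩

end

end Pool.Agent.Q93.QB
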