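import Pool.Agent.Q101.QGHull
import Pool.Agent.Y147.QR.AE

/-!
# Selection of an eigenvector of a degenerate eigenvalue by a small conformal perturbation
-/

set_option autoImplicit false

open Set Filter Topology MeasureTheory

noncomputable section

namespace Pool.Agent.Q93.QB

open Pool.Agent.Y262.QE Pool.Agent.Y264.QR Pool.Agent.Y378.QR Q101.QG

section

variable {M : Type} [MetricSpace M] [CompactSpace M] [MeasurableSpace M] [BorelSpace M]
  (μ : Measure M) [IsFiniteMeasure μ] {H : Type} [NormedAddCommGroup H] [InnerProductSpace ℝ H]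
  (i : H →L[ℝ] Lp ℝ 2 μ) (a : H →L[ℝ] H →L[ℝ] ℝ) (b : C(M, ℝ) → H →L[ℝ] H →L[ℝ] ℝ)

/-- the first-order lower bound for the mass -/
theorem low (hS : Sf μ i a) (hB : IsB μ i b) (h φ : C(M, ℝ)) :
    ∃ k : H →L[ℝ] H →L[ℝ] ℝ, (∀ u v, k u v = k v u) ∧
      (∀ v, k v v = kap μ i h φ v ∧ |k v v| ≤ ‖h‖ * b φ v v) ∧
      ∀ v (τ : ℝ), b φ v v + τ * k v v ≤ b (φ + τ • h) v v := by
  obtain ⟨b', hB', hF', -, hb', hk⟩ := tFm M μ H i a hS
  have hbb : b' = b := by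
    funext φ
    ext u v
    rw [hB', hB]
  rw [hbb] at hk
  obtain ⟨k, h1, h2, h3⟩ := hk h
  exact ⟨k φ, h1 φ, h2 φ, h3 φ⟩

/-- a small perturbation in the direction `h` selects, in the cluster of an eigenvalue, eigenvectors
with a large mass of `h` -/
theorem sel [CompleteSpace H] (hS : Sf μ i a) (hB : IsB μ i b) (hW : Wl μ a b) (φ h : C(M, ℝ))
    (v : H) (j₀ : ℕ) (hv : EV a (b φ) (Ev a (b φ) j₀) v) (hpos : 0 < Ev a (b φ) j₀) (η : ℝ)
    (hη : 0 < η) :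
    ∃ j, Ev a (b φ) j = Ev a (b φ) j₀ ∧ ∀ δ : ℝ, 0 < δ → ∃ s : ℝ, 0 < s ∧ s < δ ∧
      ∀ w, EV a (b (φ + s • h)) (Ev a (b (φ + s • h)) j) w →
        kap μ i h φ v - η ≤ kap μ i h (φ + s • h) w := by
  obtain ⟨hF, hb, hk⟩ := forms μ i a b hS hB
  obtain ⟨e₀, E₀, hE₀⟩ := tSp H a (b φ) (hF φ)
  have hm₀ : ∀ j, Ev a (b φ) j = E₀ j := fun j =>
    Pool.Agent.Y592.QE.mm H a (b φ) (hF φ) e₀ E₀ hE₀ j
  rw [hm₀] at hv hpos
  obtain ⟨e', hE', hej⟩ := rotate a (b φ) (hF φ) e₀ E₀ hE₀ j₀ v hv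
  -- the bottom of the cluster
  classical
  have hex : ∃ j, E₀ j = E₀ j₀ := ⟨j₀, rfl⟩
  set j : ℕ := Nat.find hex with hj
  have hjE : E₀ j = E₀ j₀ := Nat.find_spec hex
  have hjl : ∀ l, l < j → E₀ l < E₀ j := by
    intro l hl
    refine lt_of_le_of_ne (hE₀.mono hl.le) fun h1 => ?_
    exact Nat.find_min hex hl (h1.trans hjE)
  refine ⟨j, by rw [hm₀, hm₀, hjE], fun δ hδ => ?_⟩
  by_contra hcon
  push Not at hcon
  set κ : ℝ := kap μ i h φ v with hκ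
  have hjp : ∀ ψ, 0 < Ev a (b ψ) j := by
    rcases (tLip M μ H a b hF hb).2.2.2.2 j with h2 | h2
    · have h3 := h2 φ
      rw [hm₀, hjE] at h3
      exact absurd h3 hpos.ne'
    · exact h2
  choose e E hE using fun t : ℝ => tSp H a (b (φ + t • h)) (hF (φ + t • h))
  have hae := ae_all μ i a b hS hB hW φ h e E hE j hjp
  have hder := (tOneP M μ H i a b hS hB hW φ h e E hE).1
  set f : ℝ → ℝ := fun t => Ev a (b (φ + t • h)) j with hf
  set g : ℝ → ℝ := fun t => kap μ i h (φ + t • h) (e t j) with hg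
  have hlip : ∀ s t, f s ≤ Real.exp (‖h‖ * |s - t|) * f t := by
    intro s t
    have h1 := (tLip M μ H a b hF hb).2.2.1 (φ + s • h) (φ + t • h) j
    have h2 : φ + s • h - (φ + t • h) = (s - t) • h := by
      rw [sub_smul]; abel
    rw [h2, norm_smul, Real.norm_eq_abs, mul_comm |s - t|] at h1
    exact h1
  obtain ⟨hg1, hg2, hftc⟩ := Pool.Agent.Y147.QR.stFTC f g ‖h‖ (fun t => hjp _) hlip (by
    filter_upwards [hder] with t ht
    exact ht j)
  -- the upper bound from the derivative at `0`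
  obtain ⟨k, hk1, hk2, hk3⟩ := low μ i a b hS hB h φ
  obtain ⟨δ₁, hδ₁, hd1⟩ := tDer0 H a (b φ) (hF φ) e' E₀ hE' k ‖h‖ hk1 (fun w => (hk2 w).2) j j₀ hjE
    hjl (E₀ j * η / 2) (by rw [hjE]; positivity)
  set s : ℝ := min δ δ₁ / 2 with hs
  have hs0 : 0 < s := by positivity
  have hsδ : s < δ := by
    have := min_le_left δ δ₁
    linarith [lt_min hδ hδ₁]
  have hsδ1 : s < δ₁ := by
    have := min_le_right δ δ₁
    linarith [lt_min hδ hδ₁]
  have hup := hd1 s (by rw [abs_of_pos hs0]; exact hsδ1) (b (φ + s • h)) (fun w => hk3 w s)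
  rw [hej, (hk2 v).1, ← hκ, abs_of_pos hs0] at hup
  -- the lower bound from the integral
  have h0 := hftc 0 s hs0.le
  have hgi : IntervalIntegrable g volume 0 s := by
    rw [intervalIntegrable_iff_integrableOn_Ioc_of_le hs0.le]
    refine Measure.integrableOn_of_bounded (M := ‖h‖) (by simp) hg2.aestronglyMeasurable ?_
    exact ae_restrict_of_ae (hg1.mono fun t ht => by rwa [Real.norm_eq_abs])
  have hle : ∫ t in (0 : ℝ)..s, g t ≤ ∫ _ in (0 : ℝ)..s, (κ - η) := by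
    refine intervalIntegral.integral_mono_ae_restrict hs0.le hgi (by simp) ?_
    rw [← restrict_Ioc_eq_restrict_Icc]
    rw [Filter.EventuallyLE, ae_restrict_iff' measurableSet_Ioc]
    filter_upwards [hae] with t ht ht2
    obtain ⟨w, hw1, hw2⟩ := hcon t ht2.1 (lt_of_le_of_lt ht2.2 hsδ)
    rw [ht w hw1] at hw2
    exact hw2.le
  rw [intervalIntegral.integral_const, sub_zero, smul_eq_mul, h0] at hle
  have hf0 : f 0 = E₀ j := by
    simp only [hf, zero_smul, add_zero, hm₀]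
  have hfs : Real.log (f s) ≥ Real.log (f 0) - s * (κ - η) := by linarith
  have hfs2 : f 0 * Real.exp (-(s * (κ - η))) ≤ f s := by
    have h1 : Real.exp (Real.log (f 0) - s * (κ - η)) ≤ Real.exp (Real.log (f s)) :=
      Real.exp_le_exp.2 hfs
    rw [Real.exp_log (hjp _), sub_eq_add_neg, Real.exp_add, Real.exp_log (hjp _)] at h1
    exact h1
  have hfs3 : f 0 * (1 - s * (κ - η)) ≤ f s := by
    refine le_trans (mul_le_mul_of_nonneg_left ?_ (hjp _).le) hfs2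
    have := Real.add_one_le_exp (-(s * (κ - η)))
    linarith
  have hup' : f s ≤ E₀ j * (1 - κ * s) + E₀ j * η / 2 * s := hup
  rw [hf0] at hfs3
  have hEp : 0 < E₀ j := by rw [hjE]; exact hpos
  have h9 : E₀ j * s * η ≤ E₀ j * s * η / 2 := by nlinarith
  have h10 : 0 < E₀ j * s * η := by positivity
  linarith

/-- the property of the eigenvectors of index `j` is stable -/
theorem near [CompleteSpace H] (hS : Sf μ i a) (hB : IsB μ i b) (j : ℕ) (h : C(M, ℝ))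
    (c ε : ℝ) (hε : 0 < ε) (φ : C(M, ℝ))
    (hφ : ∀ v, EV a (b φ) (Ev a (b φ) j) v → c ≤ kap μ i h φ v) :
    ∀ᶠ ψ in 𝓝 φ, ∀ v, EV a (b ψ) (Ev a (b ψ) j) v → c - ε ≤ kap μ i h ψ v := by
  obtain ⟨hF, hb, hk⟩ := forms μ i a b hS hB
  obtain ⟨e, E, hE⟩ := tSp H a (b φ) (hF φ)
  have hmm : Ev a (b φ) j = E j :=
    Pool.Agent.Y592.QE.mm H a (b φ) (hF φ) e E hE j
  obtain ⟨q, hq1, hq2⟩ := hk h
  obtain ⟨δ, hδ, hδ1, hst⟩ := stab a (b φ) (hF φ) e E hE (-(q φ)) ‖h‖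
    (fun u v => by
      show -(q φ u v) = -(q φ v u)
      rw [hq1]) (norm_nonneg _)
    (fun v => by
      show |-(q φ v v)| ≤ _
      rw [abs_neg]
      exact (hq2 φ v).2) j (-c)
    (fun v hv => by
      show -(q φ v v) ≤ -c
      rw [(hq2 φ v).1]
      exact neg_le_neg (hφ v (by rw [hmm]; exact hv))) (ε / 8)
    (by positivity)
  have hd : Tendsto (fun ψ : C(M, ℝ) => Real.exp ‖ψ - φ‖ - 1) (𝓝 φ) (𝓝 0) := by
    have h1 : Continuous fun ψ : C(M, ℝ) => Real.exp ‖ψ - φ‖ - 1 := by fun_prop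
    have h2 := h1.tendsto φ
    rwa [sub_self, norm_zero, Real.exp_zero, sub_self] at h2
  have hEc := (tLip M μ H a b hF hb).2.2.2.1 j
  have e1 : ∀ᶠ ψ in 𝓝 φ, Real.exp ‖ψ - φ‖ - 1 < δ := hd.eventually (eventually_lt_nhds hδ)
  have e2 : ∀ᶠ ψ in 𝓝 φ, |Ev a (b ψ) j - Ev a (b φ) j| < δ := by
    have h1 := (hEc.tendsto φ).eventually (Metric.ball_mem_nhds _ hδ)
    filter_upwards [h1] with ψ h1
    exact h1
  have e3 : ∀ᶠ ψ in 𝓝 φ, ‖h‖ * (Real.exp ‖ψ - φ‖ - 1) * 2 < ε / 8 := by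
    have h1 : Tendsto (fun ψ : C(M, ℝ) => ‖h‖ * (Real.exp ‖ψ - φ‖ - 1) * 2) (𝓝 φ) (𝓝 0) := by
      have := (hd.const_mul ‖h‖).mul_const 2
      rwa [mul_zero, zero_mul] at this
    exact h1.eventually (eventually_lt_nhds (by positivity))
  filter_upwards [e1, e2, e3] with ψ e1 e2 e3
  intro v hv
  have hb1 : ∀ x, b ψ x x ≤ Real.exp ‖ψ - φ‖ * b φ x x := fun x => hb ψ φ x
  have hb2 : ∀ x, b φ x x ≤ Real.exp ‖ψ - φ‖ * b ψ x x := fun x => by
    rw [norm_sub_rev]; exact hb φ ψ x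
  have hexp : 1 ≤ Real.exp ‖ψ - φ‖ := Real.one_le_exp (norm_nonneg _)
  have hdiff : ∀ x, |b ψ x x - b φ x x| ≤ δ * b φ x x := by
    intro x
    have h0 := (hF φ).nb x
    have h0' := (hF ψ).nb x
    have h1 : b ψ x x - b φ x x ≤ (Real.exp ‖ψ - φ‖ - 1) * b φ x x := by
      have := hb1 x
      linarith
    have h2 : b φ x x - b ψ x x ≤ (Real.exp ‖ψ - φ‖ - 1) * b φ x x := by
      by_cases h3 : b ψ x x ≤ b φ x x
      · have h4 := hb2 x
        have h5 : (Real.exp ‖ψ - φ‖ - 1) * b ψ x x ≤ (Real.exp ‖ψ - φ‖ - 1) * b φ x x :=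
          mul_le_mul_of_nonneg_left h3 (by linarith)
        linarith
      · have h4 : 0 ≤ (Real.exp ‖ψ - φ‖ - 1) * b φ x x := mul_nonneg (by linarith) h0
        linarith [not_le.1 h3]
    have h3 : (Real.exp ‖ψ - φ‖ - 1) * b φ x x ≤ δ * b φ x x :=
      mul_le_mul_of_nonneg_right e1.le h0
    rw [abs_le]
    constructor <;> linarith
  have h1 : -(q φ v v) ≤ -c + ε / 8 :=
    hst (b ψ) (Ev a (b ψ) j) v (hF ψ).sb hdiff (by rw [← hmm]; exact e2.le) hv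
  rw [(hq2 φ v).1] at h1
  have h2 : b φ v v ≤ 2 := by
    have h3 := hb2 v
    rw [hv.2, mul_one] at h3
    linarith
  have h3 := (abs_le.1 (kap_lip μ i b hB h φ ψ v)).1
  have h4 : ‖h‖ * (Real.exp ‖ψ - φ‖ - 1) * b φ v v ≤ ‖h‖ * (Real.exp ‖ψ - φ‖ - 1) * 2 :=
    mul_le_mul_of_nonneg_left h2 (mul_nonneg (norm_nonneg _) (by linarith))
  linarith

end

end Pool.Agent.Q93.QB
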