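import Pool.Agent.Q93.QB.Kp

/-!
# Surfaces: normalized eigenfunctions, all of them, also those of degenerate eigenvalues
-/

set_option autoImplicit false

open Set Filter Topology MeasureTheory

noncomputable section

namespace Pool.Agent.Q93.QB

open Pool.Agent.Y262.QE Pool.Agent.Y264.QR Pool.Agent.Y378.QR Q101.QG

/-- the eigenvalue of an eigenvector is in the list -/
theorem in_list {H : Type} [NormedAddCommGroup H] [InnerProductSpace ℝ H]
    (a b : H →L[ℝ] H →L[ℝ] ℝ) (hF : Fm a b) (e : ℕ → H) (E : ℕ → ℝ) (hE : Eg a b e E) (l : ℝ)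
    (x : H) (hx : EV a b l x) : ∃ j, E j = l := by
  by_contra hcon
  push Not at hcon
  have h1 : ∀ j, b x (e j) = 0 := by
    intro j
    have h2 := hE.eig j x
    have h3 := hx.1 (e j)
    rw [hF.sa, hF.sb (e j) x] at h2
    have h4 : (E j - l) * b x (e j) = 0 := by rw [sub_mul, ← h2, ← h3, sub_self]
    exact (mul_eq_zero.1 h4).resolve_left (sub_ne_zero.2 (hcon j))
  have h2 := hE.sum x
  simp only [h1] at h2
  rw [hx.2] at h2
  have h3 : HasSum (fun _ : ℕ => (0 : ℝ) ^ 2) 0 := by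
    simpa using (hasSum_zero : HasSum (fun _ : ℕ => (0 : ℝ)) 0)
  exact one_ne_zero (h2.unique h3)

section

variable {M : Type} [MetricSpace M] [CompactSpace M] [MeasurableSpace M] [BorelSpace M]

/-- all normalized eigenfunctions with an eigenvalue `E` of at least `L` are equidistributed up to
`r E` on `f` -/
def Ok (D : Data M) (μ : Measure M) (f : C(M, ℝ)) (r : ℝ → ℝ) (L : ℕ) : Prop :=
  ∀ (E : ℝ) (v : M → ℝ), D.IsEig μ E v → ∫ x, (v x) ^ 2 ∂μ = 1 → (L : ℝ) ≤ E →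
    |∫ x, f x * (v x) ^ 2 ∂μ - (∫ x, f x ∂μ) / μ.real univ| ≤ r E

/-- the conformal factors with this property -/
def OkSet (D : Data M) (μ : Measure M) {B : Type} (ι : B → C(M, ℝ)) (f : C(M, ℝ)) (r : ℝ → ℝ)
    (L : ℕ) : Set B :=
  {y | Ok (D.conf fun x => Real.exp (ι y x)) (wm μ fun x => Real.exp (ι y x)) f r L}

variable (μ : Measure M) (D : Data M)

theorem toEV (hD : D.IsSurf μ) (i : HF D μ →L[ℝ] Lp ℝ 2 μ)
    (a : HF D μ →L[ℝ] HF D μ →L[ℝ] ℝ) (b : C(M, ℝ) → HF D μ →L[ℝ] HF D μ →L[ℝ] ℝ)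
    (hi : ∀ v : HF D μ, i v = v.1.fst) (ha : ∀ u v : HF D μ, a u v = inner ℝ u.1.snd v.1.snd)
    (hB : IsB μ i b) (φ : C(M, ℝ)) (E : ℝ) (v : M → ℝ)
    (hv : (D.conf fun x => Real.exp (φ x)).IsEig (wm μ fun x => Real.exp (φ x)) E v)
    (hn : ∫ x, (v x) ^ 2 ∂(wm μ fun x => Real.exp (φ x)) = 1) :
    ∃ x : HF D μ, (i x : M → ℝ) =ᵐ[μ] v ∧ EV a (b φ) E x := by
  set w : M → ℝ := fun x => Real.exp (φ x) with hwdef
  have hw : Continuous w := Real.continuous_exp.comp φ.continuous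
  have hp : ∀ x, 0 < w x := fun x => Real.exp_pos _
  have hwc : ∀ x, Real.exp (-‖φ‖) ≤ w x := by
    intro x
    apply Real.exp_le_exp.2
    have h1 := φ.norm_coe_le_norm x
    rw [Real.norm_eq_abs] at h1
    exact (abs_le.1 h1).1
  obtain ⟨x, hx, hxv, hxe⟩ := Pool.Agent.Y708.QR.ex_vec tDenF hD hw (Real.exp_pos _) hwc hv
  have hbe : ∀ x y : HF D μ, b φ x y =
      ∫ z, w z * ((x.1.fst : M → ℝ) z * (y.1.fst : M → ℝ) z) ∂μ := by
    intro x y
    rw [hB, hi, hi]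
  refine ⟨⟨x, hx⟩, by rw [hi]; exact hxv, fun y => ?_, ?_⟩
  · rw [ha, hbe]
    exact hxe y.1 y.2
  · rw [hbe, ← hn, integral_wm μ w hw.measurable (fun x => (hp x).le)]
    refine integral_congr_ae ?_
    filter_upwards [hxv] with z hz
    show w z * (x.fst z * x.fst z) = _
    rw [hz]
    ring

variable [Nonempty M]

theorem kp (hD : D.IsSurf μ) {B : Type}
    [AddCommGroup B] [Module ℝ B] [TopologicalSpace B] [IsTopologicalAddGroup B]
    [ContinuousSMul ℝ B] (ι : B →L[ℝ] C(M, ℝ)) (f : C(M, ℝ)) (hfι : f ∈ closure (range ι))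
    (r : ℝ → ℝ) (hr : Continuous r) (L : ℕ) :
    interior (closure (OkSet D μ ι f r L)) ⊆ OkSet D μ ι f r (L + 1) := by
  obtain ⟨hf, -⟩ := tFin M μ D hD
  haveI := hf
  obtain ⟨i, a, hSf, hi, ha⟩ := tPackF M μ D hD inferInstance
  obtain ⟨b, hB, hF, -, -, -⟩ := tFm M μ (HF D μ) i a hSf
  have hW := tWl M μ D hD inferInstance i a b hSf hi ha hB
  haveI : CompleteSpace (HF D μ) := by
    unfold HF
    exact (Submodule.isClosed_topologicalClosure _).completeSpace_coe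
  intro x₀ hx₀ E v hv hn hk
  by_contra hcon
  rw [not_le] at hcon
  set d : ℝ := |∫ x, f x * (v x) ^ 2 ∂(wm μ fun x => Real.exp (ι x₀ x)) -
    (∫ x, f x ∂(wm μ fun x => Real.exp (ι x₀ x))) /
      (wm μ fun x => Real.exp (ι x₀ x)).real univ| - r E with hd
  have hd0 : 0 < d := sub_pos.2 hcon
  have hcon' : r E + d / 2 < |∫ x, f x * (v x) ^ 2 ∂(wm μ fun x => Real.exp (ι x₀ x)) -
    (∫ x, f x ∂(wm μ fun x => Real.exp (ι x₀ x))) /
      (wm μ fun x => Real.exp (ι x₀ x)).real univ| := by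
    rw [hd] at hd0 ⊢
    linarith
  obtain ⟨z, hzv, hz⟩ := toEV μ D hD i a b hi ha hB (ι x₀) E v hv hn
  obtain ⟨e, E₀, hE₀⟩ := tSp (HF D μ) a (b (ι x₀)) (hF (ι x₀))
  obtain ⟨k, hkE⟩ := in_list a (b (ι x₀)) (hF _) e E₀ hE₀ E z hz
  have hmm : Ev a (b (ι x₀)) k = E := by
    rw [← hkE]
    exact Pool.Agent.Y592.QE.mm _ a (b (ι x₀)) (hF _) e E₀ hE₀ k
  rw [← hmm] at hz
  have hL1 : (L : ℝ) + 1 ≤ E := by
    have h1 := hk
    push_cast at h1
    exact h1
  have hE0 : 0 < Ev a (b (ι x₀)) k := by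
    rw [hmm]
    have := Nat.cast_nonneg (α := ℝ) L
    linarith
  -- the rate is nearly constant near `E`
  have hre : ∀ᶠ t in 𝓝 E, r t < r E + d / 4 :=
    hr.continuousAt.eventually_lt_const (by linarith)
  obtain ⟨ρ, hρ, hρr⟩ := Metric.eventually_nhds_iff.1 hre
  -- one sign
  have hfι' : ∀ f' : C(M, ℝ), (f' = f ∨ f' = (-1 : ℝ) • f) → f' ∈ closure (range ι) := by
    intro f' hff
    rcases hff with rfl | rfl
    · exact hfι
    · have h1 : (-1 : ℝ) • f ∈ (LinearMap.range ι.toLinearMap).topologicalClosure :=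
        Submodule.smul_mem _ _ hfι
      exact h1
  have key : ∀ f' : C(M, ℝ), avg μ f' (ι x₀) + (r E + d / 2) < kap μ i f' (ι x₀) z →
      (f' = f ∨ f' = (-1 : ℝ) • f) → False := by
    intro f' hf' hff
    obtain ⟨O', j, hO', ⟨y₁, hy₁⟩, hsub, hall⟩ := spread μ i a b hSf hB hW ι x₀ f' (hfι' f' hff)
      (r E + d / 2) (d / 4) (by positivity) z k
      (min ρ 1) (lt_min hρ one_pos) hE0 hz hf' _ isOpen_interior hx₀
    have h1 : y₁ ∈ closure (OkSet D μ ι f r L) :=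
      interior_subset (hsub hy₁)
    obtain ⟨y, hy, hyok⟩ := mem_closure_iff.1 h1 O' hO' hy₁
    obtain ⟨hLy, hwy⟩ := hall y hy
    obtain ⟨u', lam', hu'⟩ := tEx M μ D hD inferInstance (ι y)
    obtain ⟨e', he1', he2'⟩ := tBr M μ D hD i a b hSf hi ha hB hF (ι y) u' lam' hu'
    have hmm' : Ev a (b (ι y)) j = lam' j :=
      Pool.Agent.Y592.QE.mm _ a (b (ι y)) (hF _) e' lam' he2' j
    rw [hmm, hmm'] at hLy
    have hLy1 : |lam' j - E| < ρ := lt_of_lt_of_le hLy (min_le_left _ _)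
    have hLy2 : |lam' j - E| < 1 := lt_of_lt_of_le hLy (min_le_right _ _)
    have h2 := hwy (e' j) ⟨fun w => by rw [hmm']; exact he2'.eig j w, by
      rw [he2'.orth, if_pos rfl]⟩
    have hnj : ∫ x, (u' j x) ^ 2 ∂(wm μ fun x => Real.exp (ι y x)) = 1 := by
      have h4 := hu'.orth j j
      rw [if_pos rfl] at h4
      rw [← h4]
      exact integral_congr_ae (Eventually.of_forall fun x => by simp only [sq])
    have h3 := hyok (lam' j) (u' j) (hu'.eig j) hnj (by linarith [(abs_lt.1 hLy2).1])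
    rw [← kap_eq μ i f (ι y) (e' j) (u' j) (he1' j), ← avg_eq] at h3
    have h7 : r (lam' j) < r E + d / 4 := hρr (by rw [Real.dist_eq]; exact hLy1)
    have h4 := abs_le.1 h3
    have h5 : kap μ i f (ι y) (e' j) - avg μ f (ι y) ≤ r (lam' j) := h4.2
    have h6 : -(r (lam' j)) ≤ kap μ i f (ι y) (e' j) - avg μ f (ι y) := h4.1
    rcases hff with rfl | rfl
    · linarith
    · rw [avg_smul, kap_smul] at h2
      linarith
  rw [← kap_eq μ i f (ι x₀) z v hzv, ← avg_eq] at hcon'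
  rcases lt_abs.1 hcon' with h1 | h1
  · exact key f (by linarith) (Or.inl rfl)
  · refine key ((-1 : ℝ) • f) ?_ (Or.inr rfl)
    rw [avg_smul, kap_smul]
    linarith

/-- pairs of a test function and a positive number -/
abbrev Pr (M : Type) [TopologicalSpace M] : Type := C(M, ℝ) × {ε : ℝ // 0 < ε}

theorem cof (hD : D.IsSurf μ) {B : Type} (ι : B → C(M, ℝ)) :
    ∃ I : Set (Pr M), I.Countable ∧
      ∀ p : Pr M, ∃ q ∈ I, ∀ L, OkSet D μ ι q.1 (fun _ => (q.2 : ℝ)) L ⊆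
        OkSet D μ ι p.1 (fun _ => (p.2 : ℝ)) L := by
  obtain ⟨hf, -⟩ := tFin M μ D hD
  haveI := hf
  obtain ⟨i, a, hSf, hi, ha⟩ := tPackF M μ D hD inferInstance
  obtain ⟨b, hB, hF, -, -, -⟩ := tFm M μ (HF D μ) i a hSf
  obtain ⟨T, hT2, hT3⟩ := TopologicalSpace.exists_countable_dense C(M, ℝ)
  refine ⟨(fun z : C(M, ℝ) × ℕ => (z.1, (⟨1 / ((z.2 : ℝ) + 1), by positivity⟩ : {ε : ℝ // 0 < ε})))
    '' (T ×ˢ univ), (hT2.prod countable_univ).image _, ?_⟩
  rintro ⟨f, ⟨ε, hε⟩⟩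
  obtain ⟨n, hn⟩ := exists_nat_one_div_lt (show 0 < ε / 4 by positivity)
  obtain ⟨g, hg, hgf⟩ := Metric.mem_closure_iff.1 (hT3 f) (ε / 4) (by positivity)
  rw [dist_eq_norm] at hgf
  refine ⟨_, ⟨(g, n), ⟨hg, mem_univ _⟩, rfl⟩, fun L y hy => ?_⟩
  intro E v hv hnv hk
  obtain ⟨z, hzv, hz⟩ := toEV μ D hD i a b hi ha hB (ι y) E v hv hnv
  have h3 := hy E v hv hnv hk
  simp only at h3 ⊢
  rw [← kap_eq μ i _ (ι y) z v hzv, ← avg_eq] at h3 ⊢
  have k2 := abs_le.1 (kap_near μ i a b hSf hB f g (ι y) z hz.2)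
  have k4 := abs_le.1 (avg_near μ f g (ι y))
  have h4 := abs_le.1 h3
  rw [abs_le]
  constructor <;> linarith [k2.1, k2.2, k4.1, k4.2, h4.1, h4.2]

end

end Pool.Agent.Q93.QB
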